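import Mathlib

set_option autoImplicit false

open Cardinal Set

namespace Pool.Agent.Results.MP_e95952_lc.NeedsUltraLtD

/-- `g ≤* f`: `g n ≤ f n` for all but finitely many `n`. -/
def LeStar (g f : ℕ → ℕ) : Prop := {n | ¬ g n ≤ f n}.Finite

/-- A dominating family: every `g` is `≤*` some member. -/
def IsDominating (F : Set (ℕ → ℕ)) : Prop := ∀ g : ℕ → ℕ, ∃ f ∈ F, LeStar g f

/-- The dominating number `𝔡`. -/
noncomputable def dominatingNumber : Cardinal.{0} :=
  sInf {κ | ∃ F : Set (ℕ → ℕ), IsDominating F ∧ #F = κ}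

/-- `B` is a base of the ultrafilter `U`: `B ⊆ U` and every member of `U` contains a member
of `B`. -/
def IsBase (B : Set (Set ℕ)) (U : Ultrafilter ℕ) : Prop :=
  (∀ b ∈ B, b ∈ U) ∧ ∀ X ∈ U, ∃ b ∈ B, b ⊆ X

/-- The ultrafilter number `𝔲`: the least cardinality of a base of a nonprincipal ultrafilter
on `ω`. -/
noncomputable def ultrafilterNumber : Cardinal.{0} :=
  sInf {κ | ∃ (U : Ultrafilter ℕ) (B : Set (Set ℕ)),
    (∀ n : ℕ, ({n} : Set ℕ) ∉ U) ∧ IsBase B U ∧ #B = κ}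

/-- The strong polarized relation `(lam, ω) → (lam, ω)^{1,1}_2`: for every colouring
`c : L × ω → {0,1}`, where `L` is any set of cardinality `lam`, there are `A ⊆ L` of cardinality
`lam` and an infinite `B ⊆ ω` such that `c` is constant on `A × B`. -/
def StrongPolarized (lam : Cardinal.{0}) : Prop :=
  ∀ L : Type, #L = lam → ∀ c : L → ℕ → Fin 2,
    ∃ (A : Set L) (B : Set ℕ), #A = lam ∧ B.Infinite ∧ ∃ i : Fin 2, ∀ a ∈ A, ∀ n ∈ B, c a n = i

/-- A splitting family: a family of infinite subsets of `ω` such that every infinite `X ⊆ ω` is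
split by some member `S` (`X ∩ S` and `X \ S` are infinite). -/
def IsSplitting (F : Set (Set ℕ)) : Prop :=
  (∀ S ∈ F, S.Infinite) ∧
    ∀ X : Set ℕ, X.Infinite → ∃ S ∈ F, (X ∩ S).Infinite ∧ (X \ S).Infinite

/-- The splitting number `𝔰`. -/
noncomputable def splittingNumber : Cardinal.{0} :=
  sInf {κ | ∃ F : Set (Set ℕ), IsSplitting F ∧ #F = κ}

lemma exists_dominating : ∃ F : Set (ℕ → ℕ), IsDominating F ∧ #F = dominatingNumber := by
  have h : dominatingNumber ∈ {κ | ∃ F : Set (ℕ → ℕ), IsDominating F ∧ #F = κ} :=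
    csInf_mem ⟨_, Set.univ, fun g => ⟨g, Set.mem_univ _, by simp [LeStar]⟩, rfl⟩
  exact h

lemma dominatingNumber_le {F : Set (ℕ → ℕ)} (hF : IsDominating F) : dominatingNumber ≤ #F :=
  csInf_le' ⟨F, hF, rfl⟩

lemma ultrafilterNumber_le {U : Ultrafilter ℕ} {B : Set (Set ℕ)}
    (h1 : ∀ n : ℕ, ({n} : Set ℕ) ∉ U) (h2 : IsBase B U) : ultrafilterNumber ≤ #B :=
  csInf_le' ⟨U, B, h1, h2, rfl⟩

/-- Sanity check: nonprincipal ultrafilters exist, so `𝔲` is the size of some base. -/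
lemma exists_base : ∃ (U : Ultrafilter ℕ) (B : Set (Set ℕ)),
    (∀ n : ℕ, ({n} : Set ℕ) ∉ U) ∧ IsBase B U ∧ #B = ultrafilterNumber := by
  have h : ultrafilterNumber ∈ {κ | ∃ (U : Ultrafilter ℕ) (B : Set (Set ℕ)),
      (∀ n : ℕ, ({n} : Set ℕ) ∉ U) ∧ IsBase B U ∧ #B = κ} :=
    csInf_mem ⟨_, Filter.hyperfilter ℕ, {X | X ∈ Filter.hyperfilter ℕ},
      fun n => Filter.notMem_hyperfilter_of_finite (Set.finite_singleton n),
      ⟨fun _ h => h, fun X hX => ⟨X, hX, Subset.rfl⟩⟩, rfl⟩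
  exact h

/-- A family indexed by fewer than `𝔡` indices is not dominating. -/
lemma not_dominated {ι : Type} (hι : #ι < dominatingNumber) (g : ι → ℕ → ℕ) :
    ∃ h : ℕ → ℕ, ∀ i, {n | g i n < h n}.Infinite := by
  by_contra hcon
  push Not at hcon
  have hdom : IsDominating (Set.range g) := by
    intro h
    obtain ⟨i, hi⟩ := hcon h
    refine ⟨g i, ⟨i, rfl⟩, ?_⟩
    simpa [LeStar] using hi
  exact absurd ((dominatingNumber_le hdom).trans Cardinal.mk_range_le) (not_le.2 hι)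

lemma aleph0_lt_dominatingNumber : ℵ₀ < dominatingNumber := by
  by_contra hcon
  obtain ⟨F, hF, hcard⟩ := exists_dominating
  have hc : F.Countable := by
    rw [← Cardinal.le_aleph0_iff_set_countable, hcard]
    exact not_lt.1 hcon
  have hne : F.Nonempty := by
    obtain ⟨f, hf, _⟩ := hF id
    exact ⟨f, hf⟩
  obtain ⟨e, he⟩ := hc.exists_eq_range hne
  obtain ⟨f, hf, hle⟩ := hF (fun n => 1 + ∑ j ∈ Finset.range (n + 1), e j n)
  rw [he] at hf
  obtain ⟨j, rfl⟩ := hf
  have hinf : {n | ¬ (1 + ∑ j ∈ Finset.range (n + 1), e j n) ≤ e j n}.Infinite := by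
    refine (Set.infinite_of_not_bddAbove ?_).mono (s := Set.Ici j) ?_
    · rw [not_bddAbove_iff]
      exact fun x => ⟨max j (x + 1), by simp, by omega⟩
    · intro n hn
      have hn' : j ≤ n := hn
      have : e j n ≤ ∑ j ∈ Finset.range (n + 1), e j n :=
        Finset.single_le_sum (f := fun j => e j n) (fun _ _ => Nat.zero_le _)
          (Finset.mem_range.2 (by omega))
      rw [Set.mem_ofPred_eq, not_le]
      omega
  exact hinf hle

/-- Partition lemma: for fewer than `𝔡` functions `g i` there is an interval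
partition such that, for each `i`, infinitely many of its intervals contain some `[k, g i k)`. -/
lemma exists_partition {ι : Type} (hι : #ι < dominatingNumber) (g : ι → ℕ → ℕ) :
    ∃ q : ℕ → ℕ, StrictMono q ∧ q 0 = 0 ∧
      ∀ i, {n | ∃ k, q n ≤ k ∧ g i k ≤ q (n + 1)}.Infinite := by
  obtain ⟨h, hh⟩ := not_dominated hι (fun i k => g i (g i k))
  let H : ℕ → ℕ := fun k => (∑ j ∈ Finset.range (k + 1), h j) + k + 1
  have hHgt : ∀ k, k < H k := fun k => by simp only [H]; omega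
  have hHmono : Monotone H := by
    intro a b hab
    have : ∑ j ∈ Finset.range (a + 1), h j ≤ ∑ j ∈ Finset.range (b + 1), h j :=
      Finset.sum_le_sum_of_subset (Finset.range_mono (by omega))
    simp only [H]; omega
  have hHh : ∀ k, h k ≤ H k := fun k => by
    have : h k ≤ ∑ j ∈ Finset.range (k + 1), h j :=
      Finset.single_le_sum (f := h) (fun _ _ => Nat.zero_le _) (Finset.mem_range.2 (by omega))
    simp only [H]; omega
  let q : ℕ → ℕ := fun n => Nat.rec 0 (fun _ r => H r) n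
  have hq1 : ∀ n, q (n + 1) = H (q n) := fun n => rfl
  have hqmono : StrictMono q := strictMono_nat_of_lt_succ (fun n => by rw [hq1]; exact hHgt _)
  refine ⟨q, hqmono, rfl, fun i => ?_⟩
  rw [Set.infinite_iff_exists_gt]
  intro N
  obtain ⟨k, hk, hkN⟩ := (Set.infinite_iff_exists_gt.1 (hh i)) (q (N + 1))
  -- the interval containing k
  have hex : ∃ n, k < q (n + 1) := ⟨k, (Nat.lt_succ_self k).trans_le (hqmono.le_apply)⟩
  classical
  set n := Nat.find hex with hn
  have hn1 : k < q (n + 1) := Nat.find_spec hex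
  have hn2 : q n ≤ k := by
    rcases Nat.eq_zero_or_pos n with h0 | h0
    · rw [h0]; exact Nat.zero_le _
    · have := Nat.find_min hex (m := n - 1) (by omega)
      rw [show n - 1 + 1 = n by omega] at this
      omega
  have hnN : N < n := by
    by_contra hcon
    have : q (n + 1) ≤ q (N + 1) := hqmono.monotone (show n + 1 ≤ N + 1 by omega)
    omega
  have h2 : g i (g i k) < q (n + 1 + 1) := by
    have h3 : g i (g i k) < h k := hk
    have h4 : H k ≤ q (n + 1 + 1) := by rw [hq1 (n + 1)]; exact hHmono hn1.le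
    have := hHh k
    omega
  rcases le_or_gt (g i k) (q (n + 1)) with h5 | h5
  · exact ⟨n, ⟨k, hn2, h5⟩, hnN⟩
  · exact ⟨n + 1, ⟨g i k, h5.le, h2.le⟩, by omega⟩

/-- The index of the interval `[q n, q (n+1))` containing `x`. -/
lemma exists_index {q : ℕ → ℕ} (hq : StrictMono q) :
    ∃ idx : ℕ → ℕ, ∀ n x, q n ≤ x → x < q (n + 1) → idx x = n := by
  classical
  have hex : ∀ x, ∃ n, x < q (n + 1) := fun x =>
    ⟨x, (Nat.lt_succ_self x).trans_le (hq.le_apply)⟩
  refine ⟨fun x => Nat.find (hex x), fun n x h1 h2 => ?_⟩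
  have h3 : Nat.find (hex x) ≤ n := Nat.find_le h2
  by_contra hne
  have h4 : Nat.find (hex x) < n := lt_of_le_of_ne h3 hne
  have h5 : x < q (Nat.find (hex x) + 1) := Nat.find_spec (hex x)
  have h6 : q (Nat.find (hex x) + 1) ≤ q n := hq.monotone (by omega)
  omega

/-- If `𝔡 ≤ 𝔲` then fewer than `𝔡` infinite sets can be split simultaneously (that is,
`𝔡 ≤ 𝔯`). -/
lemma exists_split (hdu : dominatingNumber ≤ ultrafilterNumber) {ι : Type}
    (hι : #ι < dominatingNumber) (A : ι → Set ℕ) (hA : ∀ i, (A i).Infinite) :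
    ∃ S : Set ℕ, ∀ i, (A i ∩ S).Infinite ∧ (A i \ S).Infinite := by
  classical
  by_contra hcon
  push Not at hcon
  have hreap : ∀ S : Set ℕ, ∃ i, (A i ∩ S).Finite ∨ (A i \ S).Finite := by
    intro S
    obtain ⟨i, hi⟩ := hcon S
    refine ⟨i, ?_⟩
    by_cases h : (A i ∩ S).Infinite
    · exact Or.inr (by simpa using hi h)
    · exact Or.inl (by simpa using h)
  -- next function for a finite subfamily
  have hnext : ∀ (F : Finset ι) (k : ℕ), ∃ m, k < m ∧ ∀ i ∈ F, ∃ x ∈ A i, k ≤ x ∧ x < m := by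
    intro F k
    have hx : ∀ i, ∃ x ∈ A i, k < x := fun i => (Set.infinite_iff_exists_gt.1 (hA i)) k
    choose x hx1 hx2 using hx
    refine ⟨k + 1 + ∑ i ∈ F, (x i + 1), by omega, fun i hi => ⟨x i, hx1 i, (hx2 i).le, ?_⟩⟩
    have : x i + 1 ≤ ∑ i ∈ F, (x i + 1) :=
      Finset.single_le_sum (f := fun i => x i + 1) (fun _ _ => Nat.zero_le _) hi
    omega
  choose g hg1 hg2 using hnext
  have hfin : #(Finset ι) < dominatingNumber := by
    rcases finite_or_infinite ι with h | h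
    · exact (Cardinal.mk_le_aleph0).trans_lt aleph0_lt_dominatingNumber
    · rw [Cardinal.mk_finset_of_infinite]; exact hι
  obtain ⟨q, hq, hq0, hqg⟩ := exists_partition hfin g
  obtain ⟨idx, hidx⟩ := exists_index hq
  let Bs : ι → Set ℕ := fun i => {n | ∃ x ∈ A i, q n ≤ x ∧ x < q (n + 1)}
  let 𝓑 : Finset ι × ℕ → Set ℕ := fun p => {n | p.2 ≤ n ∧ ∀ i ∈ p.1, n ∈ Bs i}
  have h𝓑inf : ∀ p, (𝓑 p).Infinite := by
    intro p
    have h1 := hqg p.1
    rw [Set.infinite_iff_exists_gt] at h1 ⊢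
    intro N
    obtain ⟨n, ⟨k, hk1, hk2⟩, hn⟩ := h1 (max N p.2)
    refine ⟨n, ⟨by omega, fun i hi => ?_⟩, by omega⟩
    obtain ⟨x, hx1, hx2, hx3⟩ := hg2 p.1 k i hi
    exact ⟨x, hx1, by omega, by omega⟩
  let 𝓕 : Filter ℕ :=
    { sets := {X | ∃ p, 𝓑 p ⊆ X}
      univ_sets := ⟨(∅, 0), Set.subset_univ _⟩
      sets_of_superset := by
        rintro X Y ⟨p, hp⟩ hXY
        exact ⟨p, hp.trans hXY⟩
      inter_sets := by
        rintro X Y ⟨p, hp⟩ ⟨p', hp'⟩
        refine ⟨(p.1 ∪ p'.1, max p.2 p'.2), ?_⟩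
        rintro n ⟨h1, h2⟩
        have h1' : max p.2 p'.2 ≤ n := h1
        refine ⟨hp ⟨by omega, fun i hi => h2 i (Finset.mem_union_left _ hi)⟩,
          hp' ⟨by omega, fun i hi => h2 i (Finset.mem_union_right _ hi)⟩⟩ }
  have hmem : ∀ X, X ∈ 𝓕 ↔ ∃ p, 𝓑 p ⊆ X := fun X => Iff.rfl
  have hdich : ∀ s : Set ℕ, s ∈ 𝓕 ∨ sᶜ ∈ 𝓕 := by
    intro s
    obtain ⟨i, hi⟩ := hreap {x | idx x ∈ s}
    rcases hi with hi | hi
    · right
      obtain ⟨b, hb⟩ := hi.bddAbove
      refine (hmem _).2 ⟨({i}, b + 1), ?_⟩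
      rintro n ⟨h1, h2⟩ hns
      obtain ⟨x, hx1, hx2, hx3⟩ := h2 i (Finset.mem_singleton_self i)
      have h3 : idx x = n := hidx n x hx2 hx3
      have h4 : x ≤ b := hb ⟨hx1, by simpa [h3] using hns⟩
      have h5 : n ≤ q n := hq.le_apply
      have h1' : b + 1 ≤ n := h1
      omega
    · left
      obtain ⟨b, hb⟩ := hi.bddAbove
      refine (hmem _).2 ⟨({i}, b + 1), ?_⟩
      rintro n ⟨h1, h2⟩
      by_contra hns
      obtain ⟨x, hx1, hx2, hx3⟩ := h2 i (Finset.mem_singleton_self i)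
      have h3 : idx x = n := hidx n x hx2 hx3
      have h4 : x ≤ b := hb ⟨hx1, by simpa [h3] using hns⟩
      have h5 : n ≤ q n := hq.le_apply
      have h1' : b + 1 ≤ n := h1
      omega
  have hnotboth : ∀ s : Set ℕ, s ∈ 𝓕 → sᶜ ∈ 𝓕 → False := by
    intro s h1 h2
    have h3 : (∅ : Set ℕ) ∈ 𝓕 := by
      have := Filter.inter_mem h1 h2
      simpa using this
    obtain ⟨p, hp⟩ := (hmem _).1 h3
    exact h𝓑inf p ((Set.finite_empty).subset hp)
  let U : Ultrafilter ℕ := Ultrafilter.ofComplNotMemIff 𝓕 (fun s =>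
    ⟨fun h => (hdich s).resolve_right h, fun h h' => hnotboth s h h'⟩)
  have hUmem : ∀ X, X ∈ U ↔ ∃ p, 𝓑 p ⊆ X := fun X => Iff.rfl
  have hprin : ∀ n : ℕ, ({n} : Set ℕ) ∉ U := by
    intro n hn
    obtain ⟨p, hp⟩ := (hUmem _).1 hn
    exact h𝓑inf p ((Set.finite_singleton n).subset hp)
  have hbase : IsBase (Set.range 𝓑) U := by
    refine ⟨?_, ?_⟩
    · rintro _ ⟨p, rfl⟩
      exact (hUmem _).2 ⟨p, Subset.rfl⟩
    · intro X hX
      obtain ⟨p, hp⟩ := (hUmem _).1 hX
      exact ⟨_, ⟨p, rfl⟩, hp⟩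
  have hcard : #(Set.range 𝓑) < dominatingNumber := by
    refine Cardinal.mk_range_le.trans_lt ?_
    rw [Cardinal.mk_prod]
    simp only [Cardinal.lift_id]
    exact Cardinal.mul_lt_of_lt aleph0_lt_dominatingNumber.le hfin
      (by simpa using aleph0_lt_dominatingNumber)
  exact absurd (hdu.trans (ultrafilterNumber_le hprin hbase)) (not_le.2 hcard)

/-- If `𝔡 ≤ 𝔲` there is a colouring `c : 𝔡 × ω → 2` such that for every infinite `B ⊆ ω` the set
of `a` with `c` constant on `{a} × B` is bounded in `𝔡`. -/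
theorem exists_colouring (hdu : dominatingNumber ≤ ultrafilterNumber) :
    ∃ c : dominatingNumber.ord.ToType → ℕ → Fin 2, ∀ B : Set ℕ, B.Infinite →
      ∃ b, ∀ a, b < a → (∃ x ∈ B, c a x = 1) ∧ ∃ x ∈ B, c a x = 0 := by
  classical
  obtain ⟨F, hF, hcard⟩ := exists_dominating
  have hLF : #(dominatingNumber.ord.ToType) = #F := by
    rw [hcard]; simp
  obtain ⟨e⟩ := Cardinal.eq.1 hLF
  let g : dominatingNumber.ord.ToType → ℕ → ℕ := fun a k => max ((e a : ℕ → ℕ) k) (k + 1)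
  have hseg : ∀ a : dominatingNumber.ord.ToType, #(Set.Iio a) < dominatingNumber := by
    intro a
    exact Cardinal.mk_Iio_toType_ord_lt a
  have h1 : ∀ a : dominatingNumber.ord.ToType, ∃ q : ℕ → ℕ, StrictMono q ∧ q 0 = 0 ∧
      ∀ i : Set.Iio a, {n | ∃ k, q n ≤ k ∧ g i k ≤ q (n + 1)}.Infinite := fun a =>
    exists_partition (hseg a) (fun i : Set.Iio a => g i)
  choose q hq hq0 hqX using h1
  have h2 : ∀ a : dominatingNumber.ord.ToType, ∃ S : Set ℕ, ∀ i : Set.Iio a,
      ({n | ∃ k, q a n ≤ k ∧ g i k ≤ q a (n + 1)} ∩ S).Infinite ∧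
      ({n | ∃ k, q a n ≤ k ∧ g i k ≤ q a (n + 1)} \ S).Infinite := fun a =>
    exists_split hdu (hseg a) (fun i : Set.Iio a => {n | ∃ k, q a n ≤ k ∧ g i k ≤ q a (n + 1)})
      (fun i => hqX a i)
  choose S hS using h2
  have h3 : ∀ a, ∃ idx : ℕ → ℕ, ∀ n x, q a n ≤ x → x < q a (n + 1) → idx x = n := fun a =>
    exists_index (hq a)
  choose idx hidx using h3
  refine ⟨fun a x => if idx a x ∈ S a then 1 else 0, fun B hB => ?_⟩
  -- the next-element function of B
  have hnx : ∀ k, ∃ x ∈ B, k < x := fun k => (Set.infinite_iff_exists_gt.1 hB) k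
  choose nx hnx1 hnx2 using hnx
  obtain ⟨f, hf, hle⟩ := hF (fun k => nx k + 1)
  obtain ⟨b, hb⟩ := e.surjective ⟨f, hf⟩
  obtain ⟨K, hK⟩ := hle.bddAbove
  refine ⟨b, fun a hba => ?_⟩
  have key : ∀ n, K < n → (∃ k, q a n ≤ k ∧ g b k ≤ q a (n + 1)) →
      ∃ x ∈ B, idx a x = n := by
    rintro n hn ⟨k, hk1, hk2⟩
    have h5 : n ≤ q a n := (hq a).le_apply
    have h6 : nx k + 1 ≤ f k := by
      by_contra hcon
      have : k ≤ K := hK hcon
      omega
    have h7 : f k ≤ g b k := by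
      simp only [g, hb]
      exact le_max_left _ _
    have h8 := hnx2 k
    exact ⟨nx k, hnx1 k, hidx a n (nx k) (by omega) (by omega)⟩
  constructor
  · obtain ⟨n, ⟨hn1, hn2⟩, hn3⟩ := (Set.infinite_iff_exists_gt.1 (hS a ⟨b, hba⟩).1) K
    obtain ⟨x, hxB, hx⟩ := key n hn3 hn1
    exact ⟨x, hxB, by simp [hx, hn2]⟩
  · obtain ⟨n, ⟨hn1, hn2⟩, hn3⟩ := (Set.infinite_iff_exists_gt.1 (hS a ⟨b, hba⟩).2) K
    obtain ⟨x, hxB, hx⟩ := key n hn3 hn1
    exact ⟨x, hxB, by simp [hx, hn2]⟩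

/-- If `𝔡 ≤ 𝔲`, then the strong polarized relation `(𝔡, ω) → (𝔡, ω)^{1,1}_2` fails. -/
theorem fails_at_d : dominatingNumber ≤ ultrafilterNumber → ¬ StrongPolarized dominatingNumber := by
  intro hdu hrel
  obtain ⟨c, hc⟩ := exists_colouring hdu
  obtain ⟨A, B, hA, hB, i, hi⟩ := hrel dominatingNumber.ord.ToType (by simp) c
  obtain ⟨b, hb⟩ := hc B hB
  have hex : ∃ a ∈ A, b < a := by
    by_contra hcon
    push Not at hcon
    have hsub : A ⊆ insert b (Set.Iio b) := by
      intro a ha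
      rcases (hcon a ha).eq_or_lt with h | h
      · exact Or.inl h
      · exact Or.inr h
    have h1 : #A ≤ #(Set.Iio b) + 1 :=
      (Cardinal.mk_le_mk_of_subset hsub).trans (Cardinal.mk_insert_le)
    have h2 : #(Set.Iio b) + 1 < dominatingNumber :=
      Cardinal.add_lt_of_lt aleph0_lt_dominatingNumber.le (Cardinal.mk_Iio_toType_ord_lt b)
        (Cardinal.one_lt_aleph0.trans aleph0_lt_dominatingNumber)
    rw [hA] at h1
    exact absurd h1 (not_le.2 h2)
  obtain ⟨a, ha, hba⟩ := hex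
  obtain ⟨⟨x, hx, hcx⟩, ⟨y, hy, hcy⟩⟩ := hb a hba
  have h1 := hi a ha x hx
  have h2 := hi a ha y hy
  rw [hcx] at h1
  rw [hcy] at h2
  exact absurd (h1.trans h2.symm) (by decide)


/-- `𝔰 ≤ 𝔡`. -/
lemma splittingNumber_le_dominatingNumber : splittingNumber ≤ dominatingNumber := by
  classical
  obtain ⟨F, hF, hcard⟩ := exists_dominating
  -- iterate a function which is moved above the identity
  let H : (ℕ → ℕ) → ℕ → ℕ := fun f k => (∑ j ∈ Finset.range (k + 1), f j) + k + 1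
  have hHgt : ∀ f k, k < H f k := fun f k => by simp only [H]; omega
  have hHf : ∀ f k, f k ≤ H f k := fun f k => by
    have : f k ≤ ∑ j ∈ Finset.range (k + 1), f j :=
      Finset.single_le_sum (f := f) (fun _ _ => Nat.zero_le _) (Finset.mem_range.2 (by omega))
    simp only [H]; omega
  let q : (ℕ → ℕ) → ℕ → ℕ := fun f n => Nat.rec 0 (fun _ r => H f r) n
  have hq1 : ∀ f n, q f (n + 1) = H f (q f n) := fun f n => rfl
  have hq : ∀ f, StrictMono (q f) := fun f =>
    strictMono_nat_of_lt_succ (fun n => by rw [hq1]; exact hHgt _ _)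
  have hidx : ∀ f, ∃ idx : ℕ → ℕ, ∀ n x, q f n ≤ x → x < q f (n + 1) → idx x = n := fun f =>
    exists_index (hq f)
  choose idx hidx using hidx
  let S : (ℕ → ℕ) → Set ℕ := fun f => {x | Even (idx f x)}
  have hSinf : ∀ f, (S f).Infinite := by
    intro f
    rw [Set.infinite_iff_exists_gt]
    intro N
    have h1 : idx f (q f (2 * (N + 1))) = 2 * (N + 1) :=
      hidx f _ _ le_rfl (hq f (show 2 * (N + 1) < 2 * (N + 1) + 1 by omega))
    have h2 : 2 * (N + 1) ≤ q f (2 * (N + 1)) := (hq f).le_apply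
    exact ⟨q f (2 * (N + 1)), by simp only [S, Set.mem_ofPred_eq, h1]; simp, by omega⟩
  have hsplit : IsSplitting (S '' F) := by
    refine ⟨?_, ?_⟩
    · rintro _ ⟨f, _, rfl⟩
      exact hSinf f
    · intro X hX
      have hnx : ∀ k, ∃ x ∈ X, k < x := fun k => (Set.infinite_iff_exists_gt.1 hX) k
      choose nx hnx1 hnx2 using hnx
      obtain ⟨f, hf, hle⟩ := hF (fun k => nx k + 1)
      obtain ⟨K, hK⟩ := hle.bddAbove
      have key : ∀ n, K < n → ∃ x ∈ X, q f n ≤ x ∧ idx f x = n := by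
        intro n hn
        have h5 : n ≤ q f n := (hq f).le_apply
        have h6 : nx (q f n) + 1 ≤ f (q f n) := by
          by_contra hcon
          have : q f n ≤ K := hK hcon
          omega
        have h7 := hHf f (q f n)
        have h8 := hnx2 (q f n)
        refine ⟨nx (q f n), hnx1 _, h8.le, hidx f n _ h8.le ?_⟩
        rw [hq1]; omega
      refine ⟨S f, ⟨f, hf, rfl⟩, ?_, ?_⟩
      · rw [Set.infinite_iff_exists_gt]
        intro N
        obtain ⟨x, hx1, hx2, hx3⟩ := key (2 * (N + K + 1)) (by omega)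
        have h5 : 2 * (N + K + 1) ≤ q f (2 * (N + K + 1)) := (hq f).le_apply
        exact ⟨x, ⟨hx1, by simp only [S, Set.mem_ofPred_eq, hx3]; simp⟩, by omega⟩
      · rw [Set.infinite_iff_exists_gt]
        intro N
        obtain ⟨x, hx1, hx2, hx3⟩ := key (2 * (N + K + 1) + 1) (by omega)
        have h5 : 2 * (N + K + 1) + 1 ≤ q f (2 * (N + K + 1) + 1) := (hq f).le_apply
        refine ⟨x, ⟨hx1, ?_⟩, by omega⟩
        simp only [S, Set.mem_ofPred_eq, hx3]
        simp
  have h1 : splittingNumber ≤ #(S '' F) := csInf_le' ⟨_, hsplit, rfl⟩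
  exact (h1.trans Cardinal.mk_image_le).trans hcard.le

/-- If `𝔰 = 𝔲` and the relation `(𝔰, ω) → (𝔰, ω)^{1,1}_2` holds, then `𝔲 < 𝔡`. -/
theorem result : splittingNumber = ultrafilterNumber → StrongPolarized splittingNumber →
    ultrafilterNumber < dominatingNumber := by
  intro h1 h2
  by_contra hcon
  have h3 : dominatingNumber ≤ ultrafilterNumber := not_lt.1 hcon
  have h4 : splittingNumber = dominatingNumber :=
    le_antisymm splittingNumber_le_dominatingNumber (h1 ▸ h3)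
  rw [h4] at h2
  exact fails_at_d h3 h2

end Pool.Agent.Results.MP_e95952_lc.NeedsUltraLtD
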